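import Mathlib
import Pool.Agent.Y860.PR.Final

/-!
# Partition rank and analytic rank do not tensorize

For every `d ≥ 4`, every field and every prime, the negated form of the question holds, for the
partition rank and for the analytic rank, with tensors `A` of rank at most `2` and arbitrarily large
side.
-/

set_option autoImplicit false

open Pool.Agent.Y860.PR

namespace Pool.Agent.Results.MP_a9d09b_co.NoTensorization

universe u

theorem result :
    (∀ (F : Type u) [Field F] (d : ℕ), 4 ≤ d → ∀ R : ℝ, ∃ (n : ℕ) (A : (Fin d → Fin n) → F),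
      prank A ≤ 2 ∧ R < (prank (idT : (Fin d → Fin n) → F) : ℝ) ∧
      prank A < prank (idT : (Fin d → Fin n) → F) ∧
      ∀ c : ℝ, c < 1 → ∃ m : ℕ, 1 ≤ m ∧
        c ^ m * (prank (tpow (idT : (Fin d → Fin n) → F) m) : ℝ) ≤ (prank (tpow A m) : ℝ)) ∧
    (∀ (p : ℕ) [Fact p.Prime] (d : ℕ), 4 ≤ d → ∀ R : ℝ, ∃ (n : ℕ) (A : (Fin d → Fin n) → ZMod p),
      arank A ≤ 2 ∧ R < arank (idT : (Fin d → Fin n) → ZMod p) ∧
      arank A < arank (idT : (Fin d → Fin n) → ZMod p) ∧
      ∀ c : ℝ, c < 1 → ∃ m : ℕ, 1 ≤ m ∧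
        c ^ m * arank (tpow (idT : (Fin d → Fin n) → ZMod p) m) ≤ arank (tpow A m)) := by
  constructor
  · intro F _ d hd R
    obtain ⟨e, rfl⟩ : ∃ e, d = e + 4 := ⟨d - 4, by omega⟩
    obtain ⟨a, ha⟩ := exists_nat_gt (max R 2)
    have ha1 : R < a := (le_max_left _ _).trans_lt ha
    have ha2 : 2 < a := by exact_mod_cast (le_max_right _ _).trans_lt ha
    obtain ⟨ε⟩ := exists_equiv a
    obtain ⟨h1, h2, h3⟩ := prank_part F a e (by omega) ε
    refine ⟨2 * a, cycF F a e ε, h1, ?_, ?_, h3⟩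
    · rw [h2]
      push_cast
      have : (0 : ℝ) ≤ a := Nat.cast_nonneg _
      linarith
    · rw [h2]
      omega
  · intro p _ d hd R
    obtain ⟨e, rfl⟩ : ∃ e, d = e + 4 := ⟨d - 4, by omega⟩
    obtain ⟨h1, h2⟩ := arank_part p e
    obtain ⟨a, ha, hR⟩ := h2 (max R 2)
    obtain ⟨ε⟩ := exists_equiv a
    obtain ⟨h3, h4⟩ := h1 a ha ε
    exact ⟨2 * a, cycF (ZMod p) a e ε, h3, (le_max_left _ _).trans_lt hR,
      h3.trans_lt ((le_max_right _ _).trans_lt hR), h4⟩

end Pool.Agent.Results.MP_a9d09b_co.NoTensorization
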